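import Mathlib

set_option autoImplicit false

namespace Pool.Agent.Results.MP_405529_ag.No

open Matrix Filter Topology Real

/-- `e(x) = exp (2 π x)`. -/
noncomputable def e (x : ℂ) : ℂ := Complex.exp (2 * π * x)

/-- `B ∈ ℍ_g`: symmetric with positive definite real part. -/
def InH {g : ℕ} (B : Matrix (Fin g) (Fin g) ℂ) : Prop :=
  B.IsSymm ∧ ∀ x : Fin g → ℝ, x ≠ 0 → 0 < x ⬝ᵥ (B.map Complex.re) *ᵥ x

/-- The term `e(-½ nᵗ B n + nᵗ u)`. -/
noncomputable def w {g : ℕ} (n : Fin g → ℤ) (u : Fin g → ℂ) (B : Matrix (Fin g) (Fin g) ℂ) : ℂ :=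
  e (-(1 / 2) * ((fun i => (n i : ℂ)) ⬝ᵥ B *ᵥ fun i => (n i : ℂ)) + (fun i => (n i : ℂ)) ⬝ᵥ u)

/-- The theta function. -/
noncomputable def theta {g : ℕ} (u : Fin g → ℂ) (B : Matrix (Fin g) (Fin g) ℂ) : ℂ :=
  ∑' n : Fin g → ℤ, w n u B

/-- The weight function `p(n; u, B)`. -/
noncomputable def p {g : ℕ} (n : Fin g → ℤ) (u : Fin g → ℂ) (B : Matrix (Fin g) (Fin g) ℂ) : ℂ :=
  1 / theta u B * w n u B

/-- The moment `m_α(u, B)`. -/
noncomputable def m {g : ℕ} (α : Fin g → ℕ) (u : Fin g → ℂ) (B : Matrix (Fin g) (Fin g) ℂ) : ℂ :=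
  ∑' n : Fin g → ℤ, (∏ i, (n i : ℂ) ^ α i) * p n u B

def G (t : ℝ) : Matrix (Fin 4) (Fin 4) ℂ :=
  !![2 * t, t, t, 2 * t; t, 2 * t, t, 2 * t; t, t, 2 * t, 2 * t; 2 * t, 2 * t, 2 * t, 4 * t]

noncomputable def u₁ : Fin 4 → ℂ := ![Complex.I / 2, Complex.I / 2, 0, 0]

noncomputable def u₂ : Fin 4 → ℂ := ![Complex.I / 2, 0, Complex.I / 2, 0]

def Q (n : Fin 4 → ℤ) : ℤ := n 0 ^ 2 + n 1 ^ 2 + n 2 ^ 2 + (n 0 + n 1 + n 2 + 2 * n 3) ^ 2

noncomputable def W (t : ℝ) (q k : ℤ) : ℂ := Complex.exp (-(π * t * q) + π * k * Complex.I)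

lemma W_add (t : ℝ) {q q' k k' : ℤ} (j : ℤ) (hq : q = q') (h : k = k' + 2 * j) :
    W t q k = W t q' k' := by
  rw [W, W, Complex.exp_eq_exp_iff_exists_int]
  exact ⟨j, by rw [h, hq]; push_cast; ring⟩

lemma w₁ (t : ℝ) (n : Fin 4 → ℤ) : w n u₁ (G t) = W t (Q n) (n 0 + n 1) := by
  rw [w, e, W]
  congr 1
  simp [G, u₁, Q, dotProduct, mulVec, Fin.sum_univ_four]
  ring

lemma w₂ (t : ℝ) (n : Fin 4 → ℤ) : w n u₂ (G t) = W t (Q n) (n 0 + n 2) := by
  rw [w, e, W]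
  congr 1
  simp [G, u₂, Q, dotProduct, mulVec, Fin.sum_univ_four]
  ring

lemma inv_tsum {σ : (Fin 4 → ℤ) → Fin 4 → ℤ} (h : Function.Involutive σ)
    (f : (Fin 4 → ℤ) → ℂ) : ∑' n, f (σ n) = ∑' n, f n :=
  (h.toPerm σ).tsum_eq f

def τ (n : Fin 4 → ℤ) : Fin 4 → ℤ := ![n 0, n 2, n 1, n 3]

def γ (n : Fin 4 → ℤ) : Fin 4 → ℤ := ![-(n 0 + n 1 + n 2 + 2 * n 3), n 1, n 2, n 3]

def s (n : Fin 4 → ℤ) : Fin 4 → ℤ := ![-n 0, n 1, n 2, n 3 + n 0]

lemma τ_inv : Function.Involutive τ := fun n => by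
  funext i; fin_cases i <;> simp [τ]

lemma γ_inv : Function.Involutive γ := fun n => by
  funext i; fin_cases i <;> simp [γ]
  ring

lemma s_inv : Function.Involutive s := fun n => by
  funext i; fin_cases i <;> simp [s]

lemma w_τ (t : ℝ) (n : Fin 4 → ℤ) : w (τ n) u₂ (G t) = w n u₁ (G t) := by
  rw [w₁, w₂]
  exact W_add t 0 (by simp [Q, τ]; ring) (by simp [τ])

lemma w_γ (t : ℝ) (n : Fin 4 → ℤ) : w (γ n) u₂ (G t) = w n u₁ (G t) := by
  rw [w₁, w₂]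
  exact W_add t (-(n 0 + n 1 + n 3)) (by simp [Q, γ]; ring) (by simp [γ]; ring)

lemma theta_eq (t : ℝ) : theta u₂ (G t) = theta u₁ (G t) := by
  rw [theta, ← inv_tsum τ_inv, theta]
  simp only [w_τ]

lemma odd_zero {σ : (Fin 4 → ℤ) → Fin 4 → ℤ} (h : Function.Involutive σ) {f : (Fin 4 → ℤ) → ℂ}
    (hf : ∀ n, f (σ n) = -f n) : ∑' n, f n = 0 := by
  have := inv_tsum h f
  simp only [hf, tsum_neg] at this
  linear_combination (-1 / 2 : ℂ) * this

lemma m_eq (t : ℝ) (α : Fin 4 → ℕ) (hα : ∑ i, α i ≤ 3) : m α u₁ (G t) = m α u₂ (G t) := by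
  rw [Fin.sum_univ_four] at hα
  have hc : Odd (α 0 + α 1 + α 2 + α 3) ∨ α 1 = α 2 ∨ α 0 = 0 ∨ (α 0 = 1 ∧ α 3 = 0) := by
    rw [Nat.odd_iff]; omega
  rcases hc with h | h | h | h
  · have key : ∀ n : Fin 4 → ℤ, ∏ i, (((-n) i : ℤ) : ℂ) ^ α i = -∏ i, (n i : ℂ) ^ α i := by
      intro n
      simp only [Fin.prod_univ_four, Pi.neg_apply, Int.cast_neg]
      rw [neg_pow, neg_pow (n 1 : ℂ), neg_pow (n 2 : ℂ), neg_pow (n 3 : ℂ)]
      have := h.neg_one_pow (α := ℂ)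
      rw [pow_add, pow_add, pow_add] at this
      linear_combination ((n 0 : ℂ) ^ α 0 * (n 1 : ℂ) ^ α 1 * (n 2 : ℂ) ^ α 2 *
        (n 3 : ℂ) ^ α 3) * this
    rw [m, m, odd_zero neg_involutive, odd_zero neg_involutive]
    · intro n
      rw [key, p, p, w₂, w₂, W_add t (-(n 0 + n 2)) (q' := Q n) (k' := n 0 + n 2)
        (by simp [Q]; ring) (by simp; ring), neg_mul]
    · intro n
      rw [key, p, p, w₁, w₁, W_add t (-(n 0 + n 1)) (q' := Q n) (k' := n 0 + n 1)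
        (by simp [Q]; ring) (by simp; ring), neg_mul]
  · rw [m, m, ← inv_tsum τ_inv fun n => _ * p n u₂ _]
    refine tsum_congr fun n => ?_
    rw [p, p, w_τ, theta_eq]
    simp [Fin.prod_univ_four, τ, h]
    ring_nf
    simp
  · rw [m, m, ← inv_tsum γ_inv fun n => _ * p n u₂ _]
    refine tsum_congr fun n => ?_
    rw [p, p, w_γ, theta_eq]
    simp [Fin.prod_univ_four, γ, h]
  · have key : ∀ n : Fin 4 → ℤ, ∏ i, ((s n i : ℤ) : ℂ) ^ α i = -∏ i, (n i : ℂ) ^ α i := by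
      intro n
      simp [Fin.prod_univ_four, s, h.1, h.2]
    rw [m, m, odd_zero s_inv, odd_zero s_inv]
    · intro n
      rw [key, p, p, w₂, w₂, W_add t (-n 0) (q' := Q n) (k' := n 0 + n 2)
        (by simp [Q, s]; ring) (by simp [s]; ring), neg_mul]
    · intro n
      rw [key, p, p, w₁, w₁, W_add t (-n 0) (q' := Q n) (k' := n 0 + n 1)
        (by simp [Q, s]; ring) (by simp [s]; ring), neg_mul]

lemma summable_pi {f : ℤ → ℝ} (hf : Summable f) (h0 : ∀ k, 0 ≤ f k) (g : ℕ) :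
    Summable fun n : Fin g → ℤ => ∏ i, f (n i) := by
  induction g with
  | zero => exact Summable.of_finite
  | succ g ih =>
    rw [← (Fin.consEquiv fun _ => ℤ).summable_iff]
    refine (hf.mul_of_nonneg ih h0 fun n => Finset.prod_nonneg fun i _ => h0 _).congr fun x => ?_
    simp [Fin.prod_univ_succ, Fin.consEquiv]

lemma norm_W (t : ℝ) (q k : ℤ) : ‖W t q k‖ = Real.exp (-(π * t * q)) := by
  rw [W, Complex.norm_exp]
  simp

lemma Q_ge (n : Fin 4 → ℤ) : |n 0| + |n 1| + |n 2| + |n 3| ≤ 2 * Q n := by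
  have h : ∀ k : ℤ, |k| ≤ k ^ 2 := fun k => by
    rw [← sq_abs]; nlinarith [abs_nonneg k, sq_nonneg (|k| - 1), Int.le_self_sq |k|]
  have := h (n 0); have := h (n 1); have := h (n 2); have := h (n 3)
  have : n 3 ^ 2 ≤ Q n := by
    unfold Q
    nlinarith [sq_nonneg (n 0 - n 1), sq_nonneg (n 0 - n 2), sq_nonneg (n 1 - n 2),
      sq_nonneg (2 * n 0 + n 1 + n 2 + 2 * n 3), sq_nonneg (n 0 + 2 * n 1 + n 2 + 2 * n 3),
      sq_nonneg (n 0 + n 1 + 2 * n 2 + 2 * n 3)]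
  unfold Q at *
  nlinarith [sq_nonneg (n 0 + n 1 + n 2 + 2 * n 3)]

lemma theta_ne : ∃ t : ℝ, 0 < t ∧ theta u₁ (G t) ≠ 0 := by
  have hs : Summable fun k : ℤ => Real.exp (-|(k : ℝ)|) := by
    have : Summable fun k : ℕ => Real.exp (-(k : ℝ)) := Real.summable_exp_neg_nat
    refine Summable.of_nat_of_neg ?_ ?_ <;> simpa using this
  have hQ : ∀ n : Fin 4 → ℤ, |(n 0 : ℝ)| + |(n 1 : ℝ)| + |(n 2 : ℝ)| + |(n 3 : ℝ)| ≤ 2 * Q n :=
    fun n => by exact_mod_cast Q_ge n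
  have h := tendsto_tsum_of_dominated_convergence (𝓕 := atTop)
    (f := fun (t : ℝ) (n : Fin 4 → ℤ) => w n u₁ (G t)) (g := fun n => if n = 0 then 1 else 0)
    (summable_pi hs (fun k => (Real.exp_pos _).le) 4) (fun n => ?_) ?_
  · rw [tsum_ite_eq] at h
    obtain ⟨t, h1, h2⟩ := ((eventually_gt_atTop 0).and (h.eventually_ne one_ne_zero)).exists
    exact ⟨t, h1, h2⟩
  · split_ifs with hn
    · simp [w₁, hn, W, Q]
    · rw [tendsto_zero_iff_norm_tendsto_zero]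
      simp only [w₁, norm_W]
      have : (0 : ℝ) < Q n := by
        by_contra hc
        have := hQ n
        have a0 := abs_nonneg (n 0 : ℝ); have a1 := abs_nonneg (n 1 : ℝ)
        have a2 := abs_nonneg (n 2 : ℝ); have a3 := abs_nonneg (n 3 : ℝ)
        apply hn
        funext i
        have : |(n i : ℝ)| ≤ 0 := by fin_cases i <;> simp only [Fin.isValue, Fin.reduceFinMk] <;> linarith
        simpa using this
      exact Real.tendsto_exp_neg_atTop_nhds_zero.comp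
        ((tendsto_id.const_mul_atTop Real.pi_pos).atTop_mul_const this)
  · filter_upwards [eventually_ge_atTop 1] with t ht n
    rw [w₁, norm_W, ← Real.exp_sum, Fin.sum_univ_four, Real.exp_le_exp]
    have := hQ n
    have h0 : (0 : ℝ) ≤ Q n := by
      have a0 := abs_nonneg (n 0 : ℝ); have a1 := abs_nonneg (n 1 : ℝ)
      have a2 := abs_nonneg (n 2 : ℝ); have a3 := abs_nonneg (n 3 : ℝ)
      linarith
    have : 2 ≤ π * t := by nlinarith [Real.pi_gt_three]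
    nlinarith

theorem result : ¬ ∀ g : ℕ, 1 ≤ g → ∀ B : Matrix (Fin g) (Fin g) ℂ, InH B →
    ∀ u u' : Fin g → ℂ, theta u B ≠ 0 → theta u' B ≠ 0 →
      (∀ α : Fin g → ℕ, ∑ i, α i ≤ 3 → m α u B = m α u' B) →
      ∀ n : Fin g → ℤ, p n u B = p n u' B := by
  intro h
  obtain ⟨t, ht, h0⟩ := theta_ne
  have hH : InH (G t) := by
    refine ⟨by ext i j; fin_cases i <;> fin_cases j <;> simp [G], fun x hx => ?_⟩
    have e1 : x ⬝ᵥ ((G t).map Complex.re) *ᵥ x =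
        t * (x 0 ^ 2 + x 1 ^ 2 + x 2 ^ 2 + (x 0 + x 1 + x 2 + 2 * x 3) ^ 2) := by
      simp [G, dotProduct, mulVec, Fin.sum_univ_four]
      ring
    rw [e1]
    refine mul_pos ht (lt_of_le_of_ne (by positivity) fun hc => hx ?_)
    have b0 := sq_nonneg (x 0)
    have b1 := sq_nonneg (x 1)
    have b2 := sq_nonneg (x 2)
    have b3 := sq_nonneg (x 0 + x 1 + x 2 + 2 * x 3)
    have a0 : x 0 = 0 := pow_eq_zero_iff two_ne_zero |>.1 (by linarith)
    have a1 : x 1 = 0 := pow_eq_zero_iff two_ne_zero |>.1 (by linarith)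
    have a2 : x 2 = 0 := pow_eq_zero_iff two_ne_zero |>.1 (by linarith)
    have a3 : x 3 = 0 := by
      have : x 0 + x 1 + x 2 + 2 * x 3 = 0 := pow_eq_zero_iff two_ne_zero |>.1 (by linarith)
      linarith
    funext i
    fin_cases i
    exacts [a0, a1, a2, a3]
  have h1 := h 4 (by norm_num) (G t) hH u₁ u₂ h0 (theta_eq t ▸ h0) (m_eq t) ![0, 1, 0, 0]
  rw [p, p, theta_eq, mul_right_inj' (one_div_ne_zero h0), w₁, w₂, W, W, Complex.exp_add,
    Complex.exp_add, mul_right_inj' (Complex.exp_ne_zero _)] at h1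
  simp at h1
  norm_num at h1

end Pool.Agent.Results.MP_405529_ag.No
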